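import Pool.Agent.N303.SJ.Stm

set_option autoImplicit false

/-! # SJ/BESU (helper401): the Bessel functions far from the turning point -/

open MeasureTheory Metric Set Filter Topology
open scoped ENNReal

namespace Pool.Agent.N401.SJ

open Pool.Agent.N303.SH

theorem t_besu : Pool.Agent.N303.SJ.S_BESU := by
  intro c hc
  obtain ⟨A, hA⟩ := lim_all hc
  have hA0 : 0 ≤ A := A_nonneg (hA 0)
  have hc0 : (0 : ℝ) ≤ c := Nat.cast_nonneg c
  refine ⟨(c : ℝ) + 1, 2 * A + 1, by linarith, by linarith, fun l r hr => ?_⟩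
  have hl0 : (0 : ℝ) ≤ l := Nat.cast_nonneg l
  have hcl : 1 ≤ ((c : ℝ) + 1) * ((l : ℝ) + 1) := by nlinarith
  have hr0 : 0 < r := by linarith
  have hpi : (1 : ℝ) ≤ 2 * Real.pi := by linarith [Real.pi_gt_three]
  set t : ℝ := 2 * Real.pi * r with ht
  have ht0 : 0 < t := by positivity
  have htr : r ≤ t := by
    rw [ht]
    nlinarith
  have ht2 : 2 * (((c : ℝ) + 1) * ((l : ℝ) + 1)) ≤ t := by
    have h1 : (2 : ℝ) ≤ 2 * Real.pi := by linarith [Real.pi_gt_three]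
    rw [ht]
    calc 2 * (((c : ℝ) + 1) * ((l : ℝ) + 1)) ≤ 2 * r := by linarith
      _ ≤ 2 * Real.pi * r := mul_le_mul_of_nonneg_right h1 hr0.le
  have hak : ak c l ≤ ((c : ℝ) + 1) * ((l : ℝ) + 1) := by
    unfold ak sc
    nlinarith
  have hak1 := ak_ge hc l
  have hmk0 := mk_nonneg hc l
  have hmk : Pool.Agent.N303.SH.mk c l ≤ t ^ 2 / 4 := by
    have h1 : Pool.Agent.N303.SH.mk c l ≤ ak c l ^ 2 := by
      unfold Pool.Agent.N303.SH.mk
      nlinarith
    have h2 : ak c l ≤ t / 2 := by linarith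
    nlinarith
  have ht2pos : 0 < t ^ 2 := by positivity
  have hlt : Pool.Agent.N303.SH.mk c l < t ^ 2 := by linarith
  have h3 := LG hmk0 (ode_k (c := c) l) (hA l) ht0 hlt
  have h4 : Pool.Agent.N303.SH.mk c l / t ^ 2 ≤ 1 / 4 := by
    rw [div_le_iff₀ ht2pos]
    linarith
  have h5 : wk c l t ^ 4 ≤ 2 * A ^ 2 := by
    have h6 : 0 ≤ wk c l t ^ 4 := by positivity
    nlinarith
  have h7 : wk c l t ^ 2 ≤ 2 * A + 1 := by
    refine le_of_sq_le_sq ?_ (by linarith)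
    calc (wk c l t ^ 2) ^ 2 = wk c l t ^ 4 := by ring
      _ ≤ 2 * A ^ 2 := h5
      _ ≤ (2 * A + 1) ^ 2 := by nlinarith
  have h8 : ‖Ic c l r‖ = |be c l t| := by
    unfold Ic
    rw [Ik_eq, ← ht]
    exact norm_Fk c l ht0
  have h9 : wk c l t ^ 2 = |be c l t| ^ 2 * t ^ (c + 1) := by
    unfold wk
    rw [mul_pow, sq_abs, ← Real.rpow_natCast (t ^ sc c), ← Real.rpow_mul ht0.le,
      ← Real.rpow_natCast t, mul_comm]
    congr 2
    unfold sc
    push_cast
    ring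
  calc ‖Ic c l r‖ ^ 2 * r ^ (c + 1) ≤ |be c l t| ^ 2 * t ^ (c + 1) := by
        rw [h8]
        exact mul_le_mul_of_nonneg_left (pow_le_pow_left₀ hr0.le htr _) (by positivity)
    _ = wk c l t ^ 2 := h9.symm
    _ ≤ 2 * A + 1 := h7

end Pool.Agent.N401.SJ
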